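import Pool.Agent.Q12.MI2.Main

/-!
# The modular isomorphism problem over all fields when the third dimension subgroup is trivial

For every prime `p` (the prime two included), every finite `p`-group `G` whose third dimension
subgroup is trivial, every field `F` of characteristic `p` and every group `H`: if the group
algebras `FG` and `FH` are isomorphic as `F`-algebras, then `G` and `H` are isomorphic.
The third dimension subgroup may be computed over any field `F₀` of characteristic `p`.
-/

set_option autoImplicit false

namespace Pool.Agent.Results.MP_8bb7de_al.AllPrimes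

open Q21.MI

universe u₀ u w w'

theorem result (p : ℕ) [Fact p.Prime] (G : Type w) [Group G] [Finite G] (_hG : IsPGroup p G)
    (F₀ : Type u₀) [Field F₀] [CharP F₀ p] (hD : dimSubgroup F₀ G 3 = {1})
    (F : Type u) [Field F] [CharP F p] (H : Type w') [Group H]
    (hiso : Nonempty (MonoidAlgebra F G ≃ₐ[F] MonoidAlgebra F H)) :
    Nonempty (G ≃* H) := by
  by_cases hp : p = 2
  · subst hp
    obtain ⟨h1, h2⟩ := Pool.Agent.Q224.MI2.a6 F₀ G hD
    exact Q12.MI2.Main.two F G h1 h2 H hiso
  · obtain ⟨e⟩ := hiso
    have hp3 : 3 ≤ p := by
      have h2 := (Fact.out : p.Prime).two_le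
      omega
    exact GBasis.iso (GBasis.std F G) ((GBasis.std F H).map e.symm) p (exp_odd (F := F₀) p hp3 hD)
      (class_two (F := F₀) hD)

end Pool.Agent.Results.MP_8bb7de_al.AllPrimes
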